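import Pool.Agent.W443.DX.Stm4

/-! DX3-CPR (project DX of helper443): relatively prime polynomials have no common curve. -/

set_option autoImplicit false

namespace Pool.Agent.W232.DX

open MvPolynomial Pool.Agent.W443.DX

theorem cpr (h1 : S_PTS) (h2 : S_ELI) : S_CPR := by
  intro p _ f g hJ a b π hab hπ ha hb
  obtain ⟨q, hq, c, d, hqc⟩ := h2 (ZMod p) a b hab 0
  obtain ⟨r, hr, c', d', hrc⟩ := h2 (ZMod p) a b hab 1
  have e1 : Polynomial.aeval f q = (aeval ![f, g]) (Polynomial.aeval
      (X 0 : MvPolynomial (Fin 2) (ZMod p)) q) := by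
    rw [← Polynomial.aeval_algHom_apply]
    simp
  have e2 : Polynomial.aeval g r = (aeval ![f, g]) (Polynomial.aeval
      (X 1 : MvPolynomial (Fin 2) (ZMod p)) r) := by
    rw [← Polynomial.aeval_algHom_apply]
    simp
  refine h1 p f g hJ q r π hq hr hπ ?_ ?_
  · rw [e1, hqc, map_add, map_mul, map_mul]
    exact dvd_add (Dvd.dvd.mul_left ha _) (Dvd.dvd.mul_left hb _)
  · rw [e2, hrc, map_add, map_mul, map_mul]
    exact dvd_add (Dvd.dvd.mul_left ha _) (Dvd.dvd.mul_left hb _)

end Pool.Agent.W232.DX
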